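import Pool.Agent.Helper59.AN.Goals
import Pool.Agent.Helper13.NU.SYN
import Pool.Agent.Helper83.NU.SYI

/-! # MP_4137ca_lc: packet SYN -/

noncomputable section

namespace AN.PkSYN

open Pool.Agent.Helper97.Ku NU

theorem syn (sya : AN.G_SYA) (sys : AN.G_SYS) : AN.G_SYN :=
  Dfn.congr (Dfn.ex 0 (Dfn.and NU.PkSYN.omD (Dfn.ex 1 (Dfn.and
      (Dfn.all 2 (Dfn.imp (Dfn.mem 2 0) (Dfn.mem 2 1)))
      (Dfn.and (Dfn.neg (NU.PkSYN.inj NU.PkSYI.syi 1 0))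
        (Dfn.all 2 (Dfn.ex 3 (Dfn.and (sya 0 3) (Dfn.ex 4 (Dfn.and (sys.2 0 4)
          (Dfn.and (Dfn.all 5 (Dfn.imp (Dfn.mem 5 1)
            (Dfn.ex 6 (Dfn.and (Dfn.mem 6 4) (sys.1 0 2 5 6)))))
            (Dfn.neg (Dfn.mem 3 4)))))))))))))
    (fun N E w => by simp [Phi])
    (fun L _ w => by simp [phiV])

end AN.PkSYN
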